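import Pool.Agent.CIP.FR

set_option autoImplicit false

open MeasureTheory Pointwise

namespace Pool.Agent.Results.MP_f07e0d_pr.ConvexSets

/-- The optimal concentration inequality, in both of its forms, for every symmetric log-concave
probability measure and every convex Borel set, when the enlargement of the set also contains
`ε • K` for an arbitrary symmetric convex body `K` of large measure, with `ε` as small as we like.
The cost of a small `ε` is a sum of intersections of `K` with larger centroid bodies, with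
geometric weights. -/
theorem result (n : ℕ) (μ : Measure (EuclideanSpace ℝ (Fin n)))
    (hμ : IsProbabilityMeasure μ) (hsym : μ.map (fun x => -x) = μ)
    (hlc : ∀ K L : Set (EuclideanSpace ℝ (Fin n)), IsCompact K → K.Nonempty →
        IsCompact L → L.Nonempty → ∀ t : ℝ, 0 ≤ t → t ≤ 1 →
          μ K ^ t * μ L ^ (1 - t) ≤ μ (t • K + (1 - t) • L))
    (p : ℝ) (hp : 2 ≤ p) (A : Set (EuclideanSpace ℝ (Fin n))) (hA : MeasurableSet A)
    (hAconv : Convex ℝ A)
    (K : Set (EuclideanSpace ℝ (Fin n))) (hKc : IsCompact K) (hKconv : Convex ℝ K)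
    (hKs : K = -K) (hK : min (μ.real A / 2) (1 / 4) ≤ μ.real K)
    (ε : ℝ) (hε : 0 < ε) (hε1 : ε ≤ 1) (N : ℕ) (hN : 44 / ε ≤ 2 ^ N) (q : ℝ)
    (hq : min (p / ε) (p + Real.log (1 / (1 - μ.real A)) + Real.log (1 / ε)) ≤ q) :
    2 * Real.exp p * μ.real A *
        (1 - μ.real (A + ε • K + ((7000000000000 : ℝ) • {x : EuclideanSpace ℝ (Fin n) |
            ∀ v : EuclideanSpace ℝ (Fin n),
              |inner ℝ v x| ^ q ≤ ∫ y, |inner ℝ v y| ^ q ∂μ} +
          ∑ b ∈ Finset.range N, (7000000000000 / 2 ^ (b + 1) : ℝ) •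
            (K ∩ {x : EuclideanSpace ℝ (Fin n) | ∀ v : EuclideanSpace ℝ (Fin n),
              |inner ℝ v x| ^ (4 ^ (b + 1) * q) ≤
                ∫ y, |inner ℝ v y| ^ (4 ^ (b + 1) * q) ∂μ}))))
      ≤ (1 - μ.real A) *
        μ.real (A + ε • K + ((7000000000000 : ℝ) • {x : EuclideanSpace ℝ (Fin n) |
            ∀ v : EuclideanSpace ℝ (Fin n),
              |inner ℝ v x| ^ q ≤ ∫ y, |inner ℝ v y| ^ q ∂μ} +
          ∑ b ∈ Finset.range N, (7000000000000 / 2 ^ (b + 1) : ℝ) •
            (K ∩ {x : EuclideanSpace ℝ (Fin n) | ∀ v : EuclideanSpace ℝ (Fin n),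
              |inner ℝ v x| ^ (4 ^ (b + 1) * q) ≤
                ∫ y, |inner ℝ v y| ^ (4 ^ (b + 1) * q) ∂μ}))) := by
  have h := Pool.CIP.main_convex_cap hsym hlc hA hAconv hKc hKconv
    (fun x hx => by rw [hKs] at hx; exact hx) hK hp hε hε1 hN hq
  have hq0 : 0 < q := by
    have h1ε : 1 ≤ 1 / ε := by rw [le_div_iff₀ hε]; linarith
    have ha1 : μ.real A ≤ 1 := measureReal_le_one
    have ha0 : 0 ≤ μ.real A := measureReal_nonneg
    refine lt_of_lt_of_le (lt_min (by positivity) ?_) hq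
    have h1 : 0 ≤ Real.log (1 / ε) := Real.log_nonneg h1ε
    have h2 : 0 ≤ Real.log (1 / (1 - μ.real A)) := by
      rcases ha1.eq_or_lt with h3 | h3
      · rw [h3]; simp
      · apply Real.log_nonneg
        rw [le_div_iff₀ (by linarith)]
        linarith
    linarith
  have e1 : Pool.CIP.G μ q 7000000000000 = (7000000000000 : ℝ) • {x : EuclideanSpace ℝ (Fin n) |
            ∀ v : EuclideanSpace ℝ (Fin n),
              |inner ℝ v x| ^ q ≤ ∫ y, |inner ℝ v y| ^ q ∂μ} :=
    (Pool.CIP.smul_Z_eq hq0 (by norm_num)).symm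
  have e2 : ∀ b : ℕ, Pool.CIP.G μ (4 ^ (b + 1) * q) 1 = {x : EuclideanSpace ℝ (Fin n) |
      ∀ v : EuclideanSpace ℝ (Fin n), |inner ℝ v x| ^ (4 ^ (b + 1) * q) ≤
        ∫ y, |inner ℝ v y| ^ (4 ^ (b + 1) * q) ∂μ} := fun b => by
    ext x
    exact (Pool.CIP.mem_Z_iff (by positivity) x).symm
  unfold Pool.CIP.Zc at h
  rw [e1] at h
  simp only [e2] at h
  exact h

end Pool.Agent.Results.MP_f07e0d_pr.ConvexSets
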