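import Pool.Agent.CIP.FX

set_option autoImplicit false

open MeasureTheory Pointwise

namespace Pool.Agent.Results.MP_f07e0d_pr.ConvexUndilated

/-- The optimal concentration inequality, in both of its forms and without any additional body, for
every symmetric log-concave probability measure and every convex Borel set, with a factor governed
by the growth of the moments of the linear functionals: of order `(1 + n / p)^(1/3)`, resp.
`(1 + n / p)^(1/4)`, for all measures, and logarithmic for the growth of Gaussian measures. -/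
theorem result (n : ℕ) (μ : Measure (EuclideanSpace ℝ (Fin n)))
    (hμ : IsProbabilityMeasure μ) (hsym : μ.map (fun x => -x) = μ)
    (hlc : ∀ K L : Set (EuclideanSpace ℝ (Fin n)), IsCompact K → K.Nonempty →
        IsCompact L → L.Nonempty → ∀ t : ℝ, 0 ≤ t → t ≤ 1 →
          μ K ^ t * μ L ^ (1 - t) ≤ μ (t • K + (1 - t) • L))
    (p : ℝ) (hp : 2 ≤ p) (A : Set (EuclideanSpace ℝ (Fin n))) (hA : MeasurableSet A)
    (hAconv : Convex ℝ A) (α β : ℝ) (hα : 1 / 2 ≤ α) (hα1 : α ≤ 1) (hβ : 1 ≤ β)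
    (hgrow : (α = 1 ∧ β = 15) ∨ ∀ t : ℝ, 1 ≤ t → ∀ v : EuclideanSpace ℝ (Fin n),
      (∫ y, |inner ℝ v y| ^ (t * p) ∂μ) ^ (1 / (t * p)) ≤
        β * t ^ α * (∫ y, |inner ℝ v y| ^ p ∂μ) ^ (1 / p))
    (L : ℝ) (hL : Real.log (2 + n / p) ≤ L ∨ 1 ≤ (2 * α - 1) * L) (c : ℝ)
    (hc : β * L * min ((1 + n / p) ^ (1 / 2 - 1 / (6 * α)))
      ((1 + n / p) ^ (1 / 2 - 1 / (4 * α)) *
        Real.sqrt (1 + Real.log ((n + 1) / (1 - μ.real A)) / p)) ≤ c) :
    2 * Real.exp p * μ.real A *
        (1 - μ.real (A +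
          (100000000000000000 * c) • {x : EuclideanSpace ℝ (Fin n) |
            ∀ v : EuclideanSpace ℝ (Fin n),
              |inner ℝ v x| ^ p ≤ ∫ y, |inner ℝ v y| ^ p ∂μ}))
      ≤ (1 - μ.real A) *
        μ.real (A +
          (100000000000000000 * c) • {x : EuclideanSpace ℝ (Fin n) |
            ∀ v : EuclideanSpace ℝ (Fin n),
              |inner ℝ v x| ^ p ≤ ∫ y, |inner ℝ v y| ^ p ∂μ}) := by
  have hp0 : 0 < p := by linarith
  have hn0 : (0:ℝ) ≤ n := Nat.cast_nonneg n
  have hnp : (0:ℝ) ≤ (n:ℝ) / p := by positivity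
  have hX0 : 0 < 1 + (n:ℝ) / p := by linarith
  have ha1 : μ.real A ≤ 1 := measureReal_le_one
  have ha0 : 0 ≤ μ.real A := measureReal_nonneg
  have hL0 : 0 < L := by
    rcases hL with h | h
    · exact lt_of_lt_of_le (Real.log_pos (by linarith)) h
    · by_contra hcon
      push Not at hcon
      nlinarith
  have hbL : 0 < β * L := by positivity
  have h2 : 0 ≤ Real.log (((n:ℝ) + 1) / (1 - μ.real A)) := by
    rcases ha1.eq_or_lt with h3 | h3
    · rw [h3]; simp
    · apply Real.log_nonneg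
      rw [le_div_iff₀ (by linarith)]
      linarith
  have h4 : 0 ≤ Real.log (((n:ℝ) + 1) / (1 - μ.real A)) / p := div_nonneg h2 hp0.le
  have hc0 : 0 < c := by
    refine lt_of_lt_of_le (mul_pos hbL (lt_min (Real.rpow_pos_of_pos hX0 _)
      (mul_pos (Real.rpow_pos_of_pos hX0 _) (Real.sqrt_pos.2 (by linarith))))) hc
  have hc' : β * L * (1 + n / p) ^ (1 / 2 - 1 / (6 * α)) ≤ c ∨
      β * L * ((1 + n / p) ^ (1 / 2 - 1 / (4 * α)) *
        Real.sqrt (1 + Real.log ((n + 1) / (1 - μ.real A)) / p)) ≤ c := by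
    rw [mul_min_of_nonneg _ _ hbL.le] at hc
    exact min_le_iff.1 hc
  have h := Pool.CIP.main_convex_power hsym hlc hA hAconv hp hα hα1 hβ hgrow hL hc'
  rw [← Pool.CIP.smul_Z_eq hp0 (by positivity)] at h
  exact h

end Pool.Agent.Results.MP_f07e0d_pr.ConvexUndilated
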