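import Pool.Agent.CIP.FZC
import Pool.Agent.CIP.WH

set_option autoImplicit false

open MeasureTheory Pointwise

namespace Pool.Agent.Results.MP_f07e0d_pr.UnconditionalBorel

/-- The optimal concentration inequality, in both of its forms, for every log-concave probability
measure that is invariant under all coordinate reflections, every Borel set `A` and every `p ≥ 2`,
with nothing assumed on the measure of `A`: the factor is a constant times any number `c ≥ 1` which
is at least `log (2 + n / p)`, or for which the box of the `c`-fold means of the coordinates has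
measure at least `exp (-p)`. -/
theorem result (n : ℕ) (μ : Measure (EuclideanSpace ℝ (Fin n)))
    (hμ : IsProbabilityMeasure μ)
    (hunc : ∀ σ : Fin n → ℝ, (∀ i, σ i = 1 ∨ σ i = -1) →
      μ.map (fun x => WithLp.toLp 2 (fun i => σ i * x i)) = μ)
    (hlc : ∀ K L : Set (EuclideanSpace ℝ (Fin n)), IsCompact K → K.Nonempty →
        IsCompact L → L.Nonempty → ∀ t : ℝ, 0 ≤ t → t ≤ 1 →
          μ K ^ t * μ L ^ (1 - t) ≤ μ (t • K + (1 - t) • L))
    (p : ℝ) (hp : 2 ≤ p) (c : ℝ) (hc : 1 ≤ c)
    (h : Real.log (2 + n / p) ≤ c ∨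
      Real.exp (-p) ≤ μ.real {x : EuclideanSpace ℝ (Fin n) | ∀ i, |x i| ≤ c * ∫ y, |y i| ∂μ})
    (A : Set (EuclideanSpace ℝ (Fin n))) (hA : MeasurableSet A) :
    2 * Real.exp p * μ.real A *
        (1 - μ.real (A + (5000000000 * c) •
          {x : EuclideanSpace ℝ (Fin n) | ∀ v : EuclideanSpace ℝ (Fin n),
              |inner ℝ v x| ^ p ≤ ∫ y, |inner ℝ v y| ^ p ∂μ}))
      ≤ (1 - μ.real A) *
        μ.real (A + (5000000000 * c) •
          {x : EuclideanSpace ℝ (Fin n) | ∀ v : EuclideanSpace ℝ (Fin n),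
              |inner ℝ v x| ^ p ≤ ∫ y, |inner ℝ v y| ^ p ∂μ}) := by
  have h1 : 2 * Real.exp p * μ.real A * (1 - μ.real (A + Pool.CIP.G μ p (5000000000 * c))) ≤
      (1 - μ.real A) * μ.real (A + Pool.CIP.G μ p (5000000000 * c)) := by
    rcases h with h | h
    · exact Pool.CIP.main_unc_level (μ := μ) hunc hlc hp (by linarith) hA
    · exact Pool.CIP.main_unc_box (μ := μ) hunc hlc hp hc h (by linarith) hA
  rw [← Pool.CIP.smul_Z_eq (by linarith : (0:ℝ) < p) (by linarith)] at h1
  exact h1

end Pool.Agent.Results.MP_f07e0d_pr.UnconditionalBorel
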