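import Pool.Agent.CIP.EGX
import Pool.Agent.CIP.EGQ
import Pool.Agent.CIP.Y

set_option autoImplicit false

open MeasureTheory Pointwise

namespace Pool.Agent.Results.MP_f07e0d_pr.UniformlyConvexBodies

/-- The optimal concentration inequality, in both of its forms, for every symmetric log-concave
probability measure and every Borel set `A`, when the enlargement of `A` also contains `ε • K`
for a symmetric convex body `K` of large measure, for instance a dilate of the centroid body itself.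
How small `ε` may be depends on the convexity of `K` and on the measure of `A` only: every `K` is
allowed with `ε = 5 / 2` and with `ε = 50 * p / w`, and every `ε` if `K` is uniformly convex. -/
theorem result (n : ℕ) (μ : Measure (EuclideanSpace ℝ (Fin n)))
    (hμ : IsProbabilityMeasure μ) (hsym : μ.map (fun x => -x) = μ)
    (hlc : ∀ K L : Set (EuclideanSpace ℝ (Fin n)), IsCompact K → K.Nonempty →
        IsCompact L → L.Nonempty → ∀ t : ℝ, 0 ≤ t → t ≤ 1 →
          μ K ^ t * μ L ^ (1 - t) ≤ μ (t • K + (1 - t) • L))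
    (p : ℝ) (hp : 2 ≤ p) (A : Set (EuclideanSpace ℝ (Fin n))) (hA : MeasurableSet A)
    (w : ℝ) (hw : w = Real.log (1 / (μ.real A * (1 - μ.real A))))
    (K : Set (EuclideanSpace ℝ (Fin n))) (hKc : IsCompact K) (hKconv : Convex ℝ K)
    (hKs : K = -K)
    (hK : min (μ.real A / 2) (1 / 4) ≤ μ.real K ∨
      K = (300 * Real.sqrt (1 + n / p)) • {x : EuclideanSpace ℝ (Fin n) |
        ∀ v : EuclideanSpace ℝ (Fin n), |inner ℝ v x| ^ p ≤ ∫ y, |inner ℝ v y| ^ p ∂μ})
    (s t : ℝ) (hs : 0 < s) (hs2 : s ≤ 1 / 2) (hst : (t = 1 ∧ s = 1 / 2) ∨ (t = s ∧ 20 * p ≤ s * w))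
    (ε δ : ℝ) (hε : 0 < ε) (hδ : 0 < δ) (hδ1 : δ ≤ 1)
    (h : ∀ x ∈ K, ∀ y ∈ K, (1 - s) • x + s • y ∉ (1 - δ) • K →
      ((1 + δ / 4) * t) • (x - y) ∈ ε • K) :
    2 * Real.exp p * μ.real A *
        (1 - μ.real (A + ε • K +
          (10000000 * t / δ ^ 2 * (1 + (w + Real.log (1 / δ)) / p) : ℝ) •
          {x : EuclideanSpace ℝ (Fin n) | ∀ v : EuclideanSpace ℝ (Fin n),
              |inner ℝ v x| ^ p ≤ ∫ y, |inner ℝ v y| ^ p ∂μ}))
      ≤ (1 - μ.real A) *
        μ.real (A + ε • K +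
          (10000000 * t / δ ^ 2 * (1 + (w + Real.log (1 / δ)) / p) : ℝ) •
          {x : EuclideanSpace ℝ (Fin n) | ∀ v : EuclideanSpace ℝ (Fin n),
              |inner ℝ v x| ^ p ≤ ∫ y, |inner ℝ v y| ^ p ∂μ}) := by
  have ht : 0 < t := by
    rcases hst with h1 | h1
    · rw [h1.1]; norm_num
    · rw [h1.1]; exact hs
  have hw0 : 0 ≤ w := by
    have ha0 : 0 ≤ μ.real A := measureReal_nonneg
    have ha1 : μ.real A ≤ 1 := measureReal_le_one
    rcases eq_or_ne (μ.real A * (1 - μ.real A)) 0 with h1 | h1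
    · rw [hw, h1]; simp
    · have h2 : 0 < μ.real A * (1 - μ.real A) :=
        lt_of_le_of_ne (mul_nonneg ha0 (by linarith)) h1.symm
      rw [hw]
      apply Real.log_nonneg
      rw [le_div_iff₀ h2]
      nlinarith [sq_nonneg (μ.real A - 1 / 2)]
  have hlδ : 0 ≤ Real.log (1 / δ) := Real.log_nonneg (by rw [le_div_iff₀ hδ]; linarith)
  have hp0 : 0 < p := by linarith
  have hsq : 0 < 300 * Real.sqrt (1 + n / p) := by
    have h2 : (0:ℝ) ≤ n := Nat.cast_nonneg n
    have h3 : 0 ≤ (n:ℝ) / p := by positivity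
    have h4 : 0 < Real.sqrt (1 + n / p) := Real.sqrt_pos.2 (by linarith)
    positivity
  have hK : min (μ.real A / 2) (1 / 4) ≤ μ.real K := by
    rcases hK with h2 | h2
    · exact h2
    · have h3 := Pool.CIP.body_half hsym hlc hp
      rw [← Pool.CIP.smul_Z_eq hp0 hsq] at h3
      rw [h2]
      exact (min_le_right _ _).trans ((by norm_num : (1:ℝ) / 4 ≤ 1 / 2).trans h3)
  have h1 := Pool.CIP.egx_main (σ := s) (t := t)
    (s := 10000000 * t / δ ^ 2 * (1 + (w + Real.log (1 / δ)) / p)) hsym hlc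
    (Pool.CIP.enlP_holds hsym hlc) hA hKc hKconv (fun x hx => by rw [hKs] at hx; exact hx) hK
    hε hδ hδ1 hs hs2 hp (by
      rcases hst with h2 | h2
      · exact Or.inl ⟨h2.2, h2.1⟩
      · exact Or.inr ⟨h2.1, by rw [← hw]; exact h2.2⟩) h (le_of_eq (by
      rw [← hw]; field_simp))
  rw [← Pool.CIP.smul_Z_eq hp0 (by positivity)] at h1
  exact h1

end Pool.Agent.Results.MP_f07e0d_pr.UniformlyConvexBodies
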